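import Mathlib
import Pool.Agent.Helper65.SL.Base

/-!
# Project SL, module RWS: the `W`-part of the curvature
-/

set_option maxSynthPendingDepth 3
set_option linter.unusedSectionVars false
set_option linter.deprecated false
set_option linter.unusedVariables false

namespace Pool.Agent.Helper16.SL

open Filter Topology
open scoped ContDiff Manifold
open Pool.Agent.Helper23.Ric Pool.Agent.Helper65.SL

variable {V W : Type*} [NormedAddCommGroup V] [NormedSpace ℝ V] [FiniteDimensional ℝ V]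
  [NormedAddCommGroup W] [NormedSpace ℝ W] [FiniteDimensional ℝ W]

variable {G : V × W → (V × W) →L[ℝ] (V × W) →L[ℝ] ℝ} {w₀ : V} {z₀ : W}

theorem rws_ev (h : SplitAt G w₀ z₀) : ∀ᶠ z in 𝓝 z₀, SplitAt G w₀ z := by
  have := (tendsto_slice w₀ z₀).eventually h.eventually
  simpa using this

theorem rws_deriv (h : SplitAt G w₀ z₀) (a b y : W) :
    (fderiv ℝ (fun q => chris G q (0, a) (0, b)) (w₀, z₀) (0, y)).2 =
      fderiv ℝ (fun z => chris (blockW G w₀) z a b) z₀ y := by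
  have h1 := (differentiableAt_chris h.good (0, a) (0, b)).hasFDerivAt
  have h2 : HasFDerivAt (fun z : W => chris G (w₀, z) (0, a) (0, b))
      ((fderiv ℝ (fun p => chris G p (0, a) (0, b)) (w₀, z₀)).comp
      (ContinuousLinearMap.inr ℝ V W)) z₀ :=
    h1.comp z₀ (hasFDerivAt_prodMk_right w₀ z₀)
  have h3 : HasFDerivAt (fun z : W => (chris G (w₀, z) (0, a) (0, b)).2)
      ((ContinuousLinearMap.snd ℝ V W).comp
        ((fderiv ℝ (fun p => chris G p (0, a) (0, b)) (w₀, z₀)).comp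
        (ContinuousLinearMap.inr ℝ V W))) z₀ :=
    HasFDerivAt.comp (g := Prod.snd) (f := fun z : W => chris G (w₀, z) (0, a) (0, b)) z₀
      hasFDerivAt_snd h2
  have h4 : (fun z => chris (blockW G w₀) z a b) =ᶠ[𝓝 z₀]
      fun z : W => (chris G (w₀, z) (0, a) (0, b)).2 := by
    filter_upwards [rws_ev h] with z hz
    exact (hz.chris_WW_W a b).symm
  rw [(h3.congr_of_eventuallyEq h4).fderiv]
  simp

theorem rws_chris (h : SplitAt G w₀ z₀) (y : W) (x : V × W) :
    (chris G (w₀, z₀) (0, y) x).2 =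
      (chris G (w₀, z₀) (x.1, 0) (0, y)).2 + chris (blockW G w₀) z₀ y x.2 := by
  conv_lhs => rw [split x]
  rw [chris_add_right, Prod.snd_add, h.chris_WW_W, chris_symm h.good (0, y) (x.1, 0)]

theorem rws_riem (h : SplitAt G w₀ z₀) (y v : W) :
    (riem G (w₀, z₀) (0, y) (0, v) (0, v)).2 = riem (blockW G w₀) z₀ y v v +
      (chris G (w₀, z₀) ((chris G (w₀, z₀) (0, v) (0, v)).1, 0) (0, y)).2 -
      (chris G (w₀, z₀) ((chris G (w₀, z₀) (0, y) (0, v)).1, 0) (0, v)).2 := by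
  simp only [riem, Prod.snd_add, Prod.snd_sub]
  rw [rws_deriv h, rws_deriv h, rws_chris h y (chris G (w₀, z₀) (0, v) (0, v)),
    rws_chris h v (chris G (w₀, z₀) (0, y) (0, v)), h.chris_WW_W v v, h.chris_WW_W y v]
  abel

theorem rws_expand {k : ℕ} (f : Fin k → V) (hf : IsOrtho (blockV G w₀ z₀) f)
    (hk : k = Module.finrank ℝ V) (x : V) (v v' : W) :
    dW G w₀ z₀ x v v' = ∑ a, blockV G w₀ z₀ x (f a) * dW G w₀ z₀ (f a) v v' := by
  obtain ⟨b, hb, hc⟩ := ortho_basis hf hk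
  set L : V →L[ℝ] ℝ := ((((fderiv ℝ G (w₀, z₀)).flip (0, v)).flip (0, v')).comp
    (ContinuousLinearMap.inl ℝ V W)) with hL
  have hLa : ∀ u, L u = dW G w₀ z₀ u v v' := fun u => by
    simp [hL, dW]
  rw [← hLa x]
  conv_lhs => rw [← b.sum_repr x]
  rw [map_sum]
  refine Finset.sum_congr rfl fun a _ => ?_
  rw [map_smul, smul_eq_mul, hb a, hLa, ← hc x a, Module.Basis.coord_apply]

theorem rws (h : SplitAt G w₀ z₀) {k m : ℕ} (f : Fin k → V) (hf : IsOrtho (blockV G w₀ z₀) f)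
    (hk : k = Module.finrank ℝ V) (e : Fin m → W) (he : IsOrtho (blockW G w₀ z₀) e)
    (hm : m = Module.finrank ℝ W) (v : W) :
    ∑ j, blockW G w₀ z₀ (riem G (w₀, z₀) (0, e j) (0, v) (0, v)).2 (e j) =
      ricci (blockW G w₀) z₀ v v
      + ∑ a, ((1 / 4) * ∑ j, (dW G w₀ z₀ (f a) v (e j)) ^ 2
        - (1 / 4) * dW G w₀ z₀ (f a) v v * ∑ j, dW G w₀ z₀ (f a) (e j) (e j)) := by
  have hsym : ∀ u a b, dW G w₀ z₀ u a b = dW G w₀ z₀ u b a := fun u a b =>
    fderiv_symm h.good _ _ _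
  have h1 : ricci (blockW G w₀) z₀ v v =
      ∑ j, blockW G w₀ z₀ (riem (blockW G w₀) z₀ (e j) v v) (e j) := by
    rw [ricci_eq_trace h.goodW, trace_ortho he hm]
    rfl
  have h2 : ∀ j, blockW G w₀ z₀ (riem G (w₀, z₀) (0, e j) (0, v) (0, v)).2 (e j) =
      blockW G w₀ z₀ (riem (blockW G w₀) z₀ (e j) v v) (e j) +
      ∑ a, ((1 / 4) * (dW G w₀ z₀ (f a) v (e j)) ^ 2 -
        (1 / 4) * dW G w₀ z₀ (f a) v v * dW G w₀ z₀ (f a) (e j) (e j)) := by
    intro j
    rw [rws_riem h, map_sub, map_add, ContinuousLinearMap.sub_apply,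
      ContinuousLinearMap.add_apply, h.chris_VW_W, h.chris_VW_W, rws_expand f hf hk,
      rws_expand f hf hk (chris G (w₀, z₀) (0, e j) (0, v)).1, add_sub_assoc]
    congr 1
    rw [Finset.sum_div, Finset.sum_div, ← Finset.sum_sub_distrib]
    refine Finset.sum_congr rfl fun a _ => ?_
    rw [h.chris_WW_V, h.chris_WW_V, hsym (f a) (e j) v]
    ring
  rw [h1, Finset.sum_congr rfl (fun j _ => h2 j), Finset.sum_add_distrib, Finset.sum_comm]
  congr 1
  refine Finset.sum_congr rfl fun a _ => ?_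
  rw [Finset.sum_sub_distrib, Finset.mul_sum, Finset.mul_sum]

end Pool.Agent.Helper16.SL
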